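import Pool.Agent.Lib.MP_b5021c_nt.IfaceG

/-!
# Board b5, row G1C: the rank of the support of the closed element
-/

namespace Pool.Agent.B5.H50.G1c

open scoped LaurentPolynomial

theorem rk_empty {L : Type} [AddCommGroup L] : rk (∅ : Set L) = 0 := by
  rw [rk, Submodule.span_empty]
  exact finrank_bot ℤ L

theorem rk_biUnion (hR : RkS) {L : Type} [AddCommGroup L] [Module.Free ℤ L] [Module.Finite ℤ L]
    {n : ℕ} (T : Fin n → Set L) (s : Finset (Fin n)) :
    rk (⋃ i ∈ s, T i) ≤ ∑ i ∈ s, rk (T i) := by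
  obtain ⟨-, -, -, -, -, hsub, -⟩ := hR L L
  classical
  induction s using Finset.induction_on with
  | empty =>
    simp only [Finset.notMem_empty, Set.iUnion_of_empty, Set.iUnion_empty, Finset.sum_empty]
    rw [rk_empty]
  | insert a s ha ih =>
    rw [Finset.set_biUnion_insert, Finset.sum_insert ha]
    exact (hsub _ _).trans (Nat.add_le_add_left ih _)

theorem g1c' (h1 : RayFacS) (h2 : RaySpanS) (h3 : RkS) (h4 : HS) (h5 : SmallS) (h6 : G0S)
    (h7 : ThinS) : G1S := by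
  intro O _ _ _ _ P L _ _ _ _ _ phi D S i0 eta h c n G hF
  obtain ⟨-, -, -, hww, hinj, hpos⟩ := h6 O P L phi D S i0 eta h hF.cc
  set V := cl (co phi i0) S h eta D with hV
  obtain ⟨-, hmono, -, -, -, hsub, hone, hzero, -⟩ := h3 (Ker (co phi i0)) (Ker (co phi i0))
  have hthin : Thin (supp V) := h7 P (Ker (co phi i0)) (phK phi (co phi i0)) (II phi S i0)
    (OO phi S) (supp V) hinj hww
  obtain ⟨-, -, lam0, hlS, hl⟩ := hF.cc.ray
  have hlam : ∃ lam : Ker (co phi i0) →+ ℤ, Pos lam V := ⟨_, hpos lam0 hlS hl⟩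
  obtain ⟨-, hrk, -⟩ := h2 O (Ker (co phi i0)) V hlam hthin
  rw [← hrk]
  classical
  -- the three kinds of rays
  have hcov : {b | Ray V b} ⊆ ((⋃ i ∈ big G, supp (G i)) ∪ (⋃ i ∈ snp phi S i0 G, supp (G i))) ∪
      {b | Ray V b ∧ ∃ i, ¬ 1 < M ((G i).coeff 0) ∧ Pure phi S i0 (G i) ∧ b ∈ supp (G i)} := by
    intro b hb
    obtain ⟨i, hi⟩ := h1 O P L phi D S i0 eta h c n G hF b hb
    by_cases hbig : 1 < M ((G i).coeff 0)
    · left; left
      rw [Set.mem_iUnion₂]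
      exact ⟨i, Finset.mem_filter.mpr ⟨Finset.mem_univ _, hbig⟩, hi⟩
    · by_cases hp : Pure phi S i0 (G i)
      · right
        exact ⟨hb, i, hbig, hp, hi⟩
      · left; right
        rw [Set.mem_iUnion₂]
        exact ⟨i, Finset.mem_filter.mpr ⟨Finset.mem_univ _, hbig, hp⟩, hi⟩
  have hA := rk_biUnion h3 (fun i => supp (G i)) (big G)
  have hB : rk (⋃ i ∈ snp phi S i0 G, supp (G i)) ≤ (snp phi S i0 G).card := by
    refine (rk_biUnion h3 (fun i => supp (G i)) (snp phi S i0 G)).trans ?_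
    rw [Finset.card_eq_sum_ones]
    apply Finset.sum_le_sum
    intro i hi
    have hi' : ¬ 1 < M ((G i).coeff 0) ∧ ¬ Pure phi S i0 (G i) := (Finset.mem_filter.mp hi).2
    obtain ⟨-, ⟨b, hb0, hb, -⟩, -⟩ := h5 O P L phi D S i0 eta h c n G hF i hi'.1
    change rk (supp (G i)) ≤ 1
    rw [hb, hzero {b}, hone b hb0]
  have hC : rk {b | Ray V b ∧ ∃ i, ¬ 1 < M ((G i).coeff 0) ∧ Pure phi S i0 (G i) ∧
      b ∈ supp (G i)} ≤ 1 := by
    by_cases hne : {b | Ray V b ∧ ∃ i, ¬ 1 < M ((G i).coeff 0) ∧ Pure phi S i0 (G i) ∧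
      b ∈ supp (G i)}.Nonempty
    · obtain ⟨b, hb, i, hi1, hi2, hi3⟩ := hne
      refine (hmono _ {b} ?_).trans (le_of_eq (hone b hb.2.1))
      rintro b' ⟨hb', j, hj1, hj2, hj3⟩
      exact h4 O P L phi D S i0 eta h c n G hF j i b' b hj1 hi1 hj2 hi2 hj3 hi3 hb' hb
    · rw [Set.not_nonempty_iff_eq_empty] at hne
      rw [hne, rk_empty]
      exact Nat.zero_le 1
  calc rk {b | Ray V b} ≤ _ := hmono _ _ hcov
    _ ≤ _ := hsub _ _
    _ ≤ (rk (⋃ i ∈ big G, supp (G i)) + rk (⋃ i ∈ snp phi S i0 G, supp (G i))) + 1 :=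
        Nat.add_le_add (hsub _ _) hC
    _ ≤ ∑ i ∈ big G, rk (supp (G i)) + (snp phi S i0 G).card + 1 :=
        Nat.add_le_add_right (Nat.add_le_add hA hB) 1

end Pool.Agent.B5.H50.G1c

namespace Pool.Agent.B5.H50

/-- (G1) the rank of the support of the closed element. -/
theorem g1c (h1 : RayFacS) (h2 : RaySpanS) (h3 : RkS) (h4 : HS) (h5 : SmallS) (h6 : G0S)
    (h7 : ThinS) : G1S := G1c.g1c' h1 h2 h3 h4 h5 h6 h7

end Pool.Agent.B5.H50
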