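import Pool.Agent.Lib.MP_b5021c_nt.IfaceS2a

/-!
# Board b5, row T_SEC: the powers (1 - y)^n
-/

namespace Pool.Agent.B5.H50

/-- (SEC) powers of `1 - y`. -/
theorem sec : SecS := by
  intro n w hn hw hlt
  have hn0 : (n : ℝ) ≠ 0 := by
    have : 0 < n := by omega
    exact_mod_cast this.ne'
  have hnC : (n : ℂ) ≠ 0 := by exact_mod_cast hn0
  have hnpos : (0 : ℝ) < n := by
    have : 0 < n := by omega
    exact_mod_cast this
  set r : ℝ := Real.log ‖w‖ / n with hr
  set t : ℝ := Complex.arg w / n with ht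
  set u : ℂ := Complex.exp ((r : ℂ) + (t : ℂ) * Complex.I) with hu
  have hun : u ^ n = w := by
    rw [hu, ← Complex.exp_nat_mul]
    have h1 : (n : ℂ) * ((r : ℂ) + (t : ℂ) * Complex.I) = Complex.log w := by
      rw [hr, ht, Complex.log]
      push_cast
      field_simp
    rw [h1, Complex.exp_log hw]
  have hnorm : ‖u‖ = Real.exp r := by
    rw [hu, Complex.norm_exp]
    simp
  have hre : u.re = Real.exp r * Real.cos t := by
    rw [hu, Complex.exp_re]
    simp
  have hpos : 0 < Real.exp r := Real.exp_pos r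
  have hlt2 : ‖u‖ < Real.sqrt 3 := by
    apply lt_of_pow_lt_pow_left₀ n (Real.sqrt_nonneg 3)
    rw [← norm_pow, hun]
    exact hlt
  have habs : |t| ≤ Real.pi / 6 := by
    rw [ht, abs_div, abs_of_pos hnpos, div_le_iff₀ hnpos]
    have h1 := Complex.abs_arg_le_pi w
    have h6 : (6 : ℝ) ≤ n := by exact_mod_cast hn
    nlinarith [Real.pi_pos]
  have hcos : Real.sqrt 3 / 2 ≤ Real.cos t := by
    rw [← Real.cos_abs t, ← Real.cos_pi_div_six]
    apply Real.cos_le_cos_of_nonneg_of_le_pi (abs_nonneg t) _ habs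
    linarith [Real.pi_pos]
  refine ⟨1 - u, ?_, by rw [sub_sub_cancel]; exact hun⟩
  have hsq : ‖1 - u‖ ^ 2 = 1 - 2 * u.re + ‖u‖ ^ 2 := by
    rw [← Complex.normSq_eq_norm_sq, ← Complex.normSq_eq_norm_sq, Complex.normSq_apply,
      Complex.normSq_apply]
    simp
    ring
  have hlt3 : ‖1 - u‖ ^ 2 < 1 := by
    rw [hsq, hre, hnorm]
    rw [hnorm] at hlt2
    nlinarith [mul_pos hpos hpos, mul_le_mul_of_nonneg_left hcos hpos.le]
  have h0 := norm_nonneg (1 - u)
  nlinarith

end Pool.Agent.B5.H50
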