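import Pool.Agent.Lib.MP_b5021c_nt.IfaceS2a

/-!
# Board b5, row T_SMP: sum and product
-/

namespace Pool.Agent.B5.H50.Smp

theorem step {x Q s : ℝ} (hx : s ≤ x) (h1 : 1 ≤ s) {q : ℝ} (hQ : q ≤ Q) (h2 : 1 ≤ q) :
    (s - 1) * (q - 1) - 1 ≤ x * Q - x - Q := by
  have h : (s - 1) * (q - 1) ≤ (x - 1) * (Q - 1) :=
    mul_le_mul (by linarith) (by linarith) (by linarith) (by linarith)
  nlinarith [h]

theorem prod_ge (m : ℕ) (x : Fin m → ℝ) (hx : ∀ i, Real.sqrt 3 ≤ x i) :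
    Real.sqrt 3 ^ m ≤ ∏ i, x i := by
  have h := Finset.prod_le_prod (s := Finset.univ) (f := fun _ : Fin m => Real.sqrt 3)
    (g := x) (fun i _ => Real.sqrt_nonneg 3) (fun i _ => hx i)
  simpa using h

theorem s_pos : (0 : ℝ) < Real.sqrt 3 := Real.sqrt_pos.mpr (by norm_num)
theorem s_sq : Real.sqrt 3 * Real.sqrt 3 = 3 := Real.mul_self_sqrt (by norm_num)
theorem s_lo : (173 / 100 : ℝ) ≤ Real.sqrt 3 := by
  apply Real.le_sqrt_of_sq_le
  norm_num
theorem s_lo' : (173205 / 100000 : ℝ) ≤ Real.sqrt 3 := by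
  apply Real.le_sqrt_of_sq_le
  norm_num
theorem s_hi : Real.sqrt 3 ≤ (17321 / 10000 : ℝ) := by
  rw [Real.sqrt_le_left (by norm_num)]
  norm_num

theorem two (x : Fin 2 → ℝ) (hx : ∀ i, Real.sqrt 3 ≤ x i) :
    ∑ i, x i ≤ (∏ i, x i) / Real.sqrt 3 + Real.sqrt 3 := by
  rw [Fin.sum_univ_two, Fin.prod_univ_two]
  have h0 := hx 0
  have h1 := hx 1
  have hs := s_pos
  have hss := s_sq
  have h : 0 ≤ (x 0 - Real.sqrt 3) * (x 1 - Real.sqrt 3) :=
    mul_nonneg (by linarith) (by linarith)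
  have h2 : x 0 + x 1 - Real.sqrt 3 ≤ (x 0 * x 1) / Real.sqrt 3 := by
    rw [le_div_iff₀ hs]
    nlinarith [h, hss]
  linarith

theorem three (x : Fin 3 → ℝ) (hx : ∀ i, Real.sqrt 3 ≤ x i) :
    ∑ i, x i ≤ (∏ i, x i) / Real.sqrt 3 + 22 / 10 := by
  rw [Fin.sum_univ_castSucc, Fin.prod_univ_castSucc]
  have h2 := two (fun i => x (Fin.castSucc i)) (fun i => hx _)
  have hp := prod_ge 2 (fun i => x (Fin.castSucc i)) (fun i => hx _)
  have hs := s_pos
  have hq : Real.sqrt 3 ≤ (∏ i : Fin 2, x (Fin.castSucc i)) / Real.sqrt 3 := by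
    rw [le_div_iff₀ hs]
    rw [pow_two] at hp
    exact hp
  have h3 := step (hx (Fin.last 2)) (by linarith [s_lo]) hq (by linarith [s_lo])
  have h4 : (∏ i : Fin 2, x (Fin.castSucc i)) * x (Fin.last 2) / Real.sqrt 3 =
      x (Fin.last 2) * ((∏ i : Fin 2, x (Fin.castSucc i)) / Real.sqrt 3) := by ring
  rw [h4]
  nlinarith [h3, h2, s_sq, s_hi, s_lo']

theorem gen (m : ℕ) : 3 ≤ m → ∀ x : Fin m → ℝ, (∀ i, Real.sqrt 3 ≤ x i) →
    ∑ i, x i ≤ (∏ i, x i) / Real.sqrt 3 + 22 / 10 := by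
  intro hm
  induction m, hm using Nat.le_induction with
  | base => exact three
  | succ m hm ih =>
    intro x hx
    rw [Fin.sum_univ_castSucc, Fin.prod_univ_castSucc]
    have h2 := ih (fun i => x (Fin.castSucc i)) (fun i => hx _)
    have hp := prod_ge m (fun i => x (Fin.castSucc i)) (fun i => hx _)
    have hs := s_pos
    have h33 : Real.sqrt 3 ^ 3 ≤ Real.sqrt 3 ^ m :=
      pow_le_pow_right₀ (by linarith [s_lo]) hm
    have hq : 3 ≤ (∏ i : Fin m, x (Fin.castSucc i)) / Real.sqrt 3 := by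
      rw [le_div_iff₀ hs]
      calc 3 * Real.sqrt 3 = Real.sqrt 3 ^ 3 := by
            rw [pow_succ, pow_two, s_sq]
        _ ≤ _ := h33.trans hp
    have h3 := step (hx (Fin.last m)) (by linarith [s_lo]) hq (by norm_num)
    have h4 : (∏ i : Fin m, x (Fin.castSucc i)) * x (Fin.last m) / Real.sqrt 3 =
        x (Fin.last m) * ((∏ i : Fin m, x (Fin.castSucc i)) / Real.sqrt 3) := by ring
    rw [h4]
    nlinarith [h3, h2, s_lo]

end Pool.Agent.B5.H50.Smp

namespace Pool.Agent.B5.H50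

/-- (SMP) sum and product. -/
theorem smp : SmpS := by
  intro m x hm hx
  rcases Nat.lt_or_ge 2 m with h | h
  · exact Smp.gen m h x hx
  · obtain rfl : m = 2 := le_antisymm h hm
    have h2 := Smp.two x hx
    linarith [Smp.s_hi]

end Pool.Agent.B5.H50
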