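import Pool.Agent.Lib.MP_b5021c_nt.IfaceS4a

/-!
# Row U_SU3 (PaperS4.md, W4): the bound in class `V` is superadditive for products
-/

namespace Pool.Agent.B5.H50

open Pool.Agent.B5

lemma sqrt3_gt : (17 : ℝ) / 10 < Real.sqrt 3 := by
  rw [Real.lt_sqrt (by norm_num)]
  norm_num

/-- two factors -/
lemma su3_two {x y : ℝ} (hx : Real.sqrt 3 ≤ x) (hy : Real.sqrt 3 ≤ y) :
    bV3 x + bV3 y + 4 ≤ bV3 (x * y) := by
  have h3 := sqrt3_gt
  have hx' : (17 : ℝ) / 10 < x := lt_of_lt_of_le h3 hx
  have hy' : (17 : ℝ) / 10 < y := lt_of_lt_of_le h3 hy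
  have hxy : (1 : ℝ) ≤ x * y := by nlinarith
  have ex : bVL x = 24 * (x - 1) := by
    unfold bVL; rw [max_eq_right]; linarith
  have ey : bVL y = 24 * (y - 1) := by
    unfold bVL; rw [max_eq_right]; linarith
  have exy : bVL (x * y) = 24 * (x * y - 1) := by
    unfold bVL; rw [max_eq_right]; nlinarith
  have mx : max 1 x = x := max_eq_right (by linarith)
  have my : max 1 y = y := max_eq_right (by linarith)
  have mxy : max 1 (x * y) = x * y := max_eq_right hxy
  unfold bV3
  rw [ex, ey, exy, mx, my, mxy]
  refine le_min ?_ ?_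
  · have a1 := min_le_left (24 * (x - 1)) (2 * x + 4800)
    have a2 := min_le_left (24 * (y - 1)) (2 * y + 4800)
    nlinarith [mul_pos (sub_pos.2 hx') (sub_pos.2 hy')]
  · have a1 := min_le_left (24 * (x - 1)) (2 * x + 4800)
    have a1' := min_le_right (24 * (x - 1)) (2 * x + 4800)
    have a2 := min_le_left (24 * (y - 1)) (2 * y + 4800)
    have a2' := min_le_right (24 * (y - 1)) (2 * y + 4800)
    rcases le_total 15 x with h15 | h15
    · nlinarith [mul_nonneg (sub_nonneg.2 h15) (sub_nonneg.2 hy'.le)]
    · rcases le_total 15 y with k15 | k15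
      · nlinarith [mul_nonneg (sub_nonneg.2 k15) (sub_nonneg.2 hx'.le)]
      · nlinarith

/-- SU3 -/
theorem su3 : Su3S := by
  intro m
  induction m with
  | zero => intro x h; omega
  | succ n ih =>
    intro x _ hx
    rcases Nat.eq_zero_or_pos n with rfl | hn
    · simp
    · have h1 := ih (fun i => x (Fin.castSucc i)) hn (fun i => hx _)
      have hP : Real.sqrt 3 ≤ ∏ i : Fin n, x (Fin.castSucc i) := by
        have h3 := sqrt3_gt
        have key : ∀ s : Finset (Fin n), s.Nonempty →
            Real.sqrt 3 ≤ ∏ i ∈ s, x (Fin.castSucc i) := by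
          intro s hs
          induction hs using Finset.Nonempty.cons_induction with
          | singleton a => simpa using hx _
          | cons a s ha hs ih2 =>
            rw [Finset.prod_cons]
            have := hx (Fin.castSucc a)
            nlinarith
        haveI : Nonempty (Fin n) := ⟨⟨0, hn⟩⟩
        exact key Finset.univ Finset.univ_nonempty
      have h2 := su3_two hP (hx (Fin.last n))
      rw [Fin.sum_univ_castSucc, Fin.prod_univ_castSucc]
      push_cast
      linarith

end Pool.Agent.B5.H50
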